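import Mathlib

set_option autoImplicit false

namespace Pool.Agent.L5helper95.Climb

/-- The accelerated `3x+1` map. -/
def T (n : ℕ) : ℕ := if n % 2 = 0 then n / 2 else (3 * n + 1) / 2

lemma T_odd (m : ℕ) : T (2 * m + 1) = 3 * m + 2 := by
  unfold T
  rw [if_neg (by omega)]
  omega

lemma T_even (m : ℕ) : T (2 * m) = m := by
  unfold T
  rw [if_pos (by omega)]
  omega

/-- odd steps from `2 ^ k m - 1` -/
lemma T_pow_sub {k m : ℕ} (hm : 1 ≤ m) : T (2 ^ (k + 1) * m - 1) = 3 * (2 ^ k * m) - 1 := by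
  have h1 : 1 ≤ 2 ^ k * m := Nat.one_le_iff_ne_zero.2 (by positivity)
  have e : 2 ^ (k + 1) * m - 1 = 2 * (2 ^ k * m - 1) + 1 := by
    rw [pow_succ]
    have : 2 ^ k * 2 * m = 2 * (2 ^ k * m) := by ring
    omega
  rw [e, T_odd]
  omega

/-- The first `k` iterates of `2 ^ k m - 1`. -/
lemma iter_climb (k m : ℕ) (hm : 1 ≤ m) (i : ℕ) (hi : i ≤ k) :
    T^[i] (2 ^ k * m - 1) = 3 ^ i * 2 ^ (k - i) * m - 1 := by
  induction i with
  | zero => simp
  | succ i ih =>
    rw [Function.iterate_succ_apply', ih (by omega)]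
    obtain ⟨j, hj⟩ : ∃ j, k - i = j + 1 := ⟨k - i - 1, by omega⟩
    have hj' : k - (i + 1) = j := by omega
    rw [hj, hj']
    have e : 3 ^ i * 2 ^ (j + 1) * m - 1 = 2 ^ (j + 1) * (3 ^ i * m) - 1 := by ring_nf
    rw [e, T_pow_sub (Nat.one_le_iff_ne_zero.2 (by positivity))]
    ring_nf

/-- Terras: every parity word is the word of one residue class. -/
lemma terras (J : ℕ) (w : ℕ → ℕ) (hw : ∀ i, w i = 0 ∨ w i = 1) :
    ∃ r : ℕ, ∀ y : ℕ, y ≡ r [MOD 2 ^ J] → ∀ i < J, T^[i] y % 2 = w i := by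
  induction J generalizing w with
  | zero => exact ⟨0, fun y _ i hi => absurd hi (by omega)⟩
  | succ J ih =>
    obtain ⟨r', hr'⟩ := ih (fun i => w (i + 1)) (fun i => hw (i + 1))
    rcases hw 0 with h0 | h0
    · refine ⟨2 * r', fun y hy i hi => ?_⟩
      have hy2 : y % 2 = 0 := by
        have h1 : y ≡ 2 * r' [MOD 2] := hy.of_dvd (dvd_pow_self 2 (by omega))
        have h2 : y % 2 = (2 * r') % 2 := h1
        omega
      obtain ⟨z, rfl⟩ : ∃ z, y = 2 * z := ⟨y / 2, by omega⟩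
      have hz : z ≡ r' [MOD 2 ^ J] := by
        have h1 : 2 * z ≡ 2 * r' [MOD 2 * 2 ^ J] := by rwa [← pow_succ']
        exact Nat.ModEq.mul_left_cancel' (by norm_num) h1
      rcases i with _ | i
      · simp only [Function.iterate_zero, id]; omega
      · rw [Function.iterate_succ_apply, T_even]
        exact hr' z hz i (by omega)
    · -- choose `r` with `3 r + 1 ≡ 2 r'`
      obtain ⟨r, hr⟩ : ∃ r : ℕ, 3 * r + 1 ≡ 2 * r' [MOD 2 ^ (J + 1)] := by
        have hs : 2 ^ (J + 1) % 3 ≠ 0 := by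
          intro h
          have h1 : 3 ∣ 2 ^ (J + 1) := Nat.dvd_of_mod_eq_zero h
          have h2 := Nat.Prime.dvd_of_dvd_pow Nat.prime_three h1
          omega
        set s := 2 ^ (J + 1) with hsdef
        have h3 : s % 3 = 1 ∨ s % 3 = 2 := by omega
        obtain ⟨t, ht⟩ : ∃ t : ℕ, (2 * r' + t * s) % 3 = 1 := by
          have h4 : r' % 3 = 0 ∨ r' % 3 = 1 ∨ r' % 3 = 2 := by omega
          rcases h3 with h3 | h3 <;> rcases h4 with h4 | h4 | h4
          · exact ⟨1, by omega⟩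
          · exact ⟨2, by omega⟩
          · exact ⟨0, by omega⟩
          · exact ⟨2, by omega⟩
          · exact ⟨1, by omega⟩
          · exact ⟨0, by omega⟩
        refine ⟨(2 * r' + t * s) / 3, ?_⟩
        have h5 : 3 * ((2 * r' + t * s) / 3) + 1 = 2 * r' + t * s := by omega
        rw [h5]
        unfold Nat.ModEq
        rw [Nat.add_mul_mod_self_right]
      refine ⟨r, fun y hy i hi => ?_⟩
      have h1 : 3 * y + 1 ≡ 2 * r' [MOD 2 ^ (J + 1)] := ((hy.mul_left 3).add_right 1).trans hr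
      have hy2 : y % 2 = 1 := by
        have h2 : 3 * y + 1 ≡ 2 * r' [MOD 2] := h1.of_dvd (dvd_pow_self 2 (by omega))
        have h3 : (3 * y + 1) % 2 = (2 * r') % 2 := h2
        omega
      obtain ⟨z, rfl⟩ : ∃ z, y = 2 * z + 1 := ⟨y / 2, by omega⟩
      have hz : 3 * z + 2 ≡ r' [MOD 2 ^ J] := by
        have h2 : 2 * (3 * z + 2) ≡ 2 * r' [MOD 2 * 2 ^ J] := by
          rw [← pow_succ']
          have e : 2 * (3 * z + 2) = 3 * (2 * z + 1) + 1 := by ring
          rwa [e]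
        exact Nat.ModEq.mul_left_cancel' (by norm_num) h2
      rcases i with _ | i
      · simp only [Function.iterate_zero, id]; omega
      · rw [Function.iterate_succ_apply, T_odd]
        exact hr' _ hz i (by omega)

/-- `3 ^ (2 ^ (j + 1)) = 1 + 2 ^ (j + 3) * odd` -/
lemma three_pow (j : ℕ) : ∃ q : ℕ, 3 ^ (2 ^ (j + 1)) = 1 + 2 ^ (j + 3) * (2 * q + 1) := by
  induction j with
  | zero => exact ⟨0, by norm_num⟩
  | succ j ih =>
    obtain ⟨q, hq⟩ := ih
    refine ⟨q + 2 ^ (j + 1) * (2 * q + 1) ^ 2, ?_⟩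
    have e : (2 : ℕ) ^ (j + 1 + 1) = 2 ^ (j + 1) * 2 := by ring
    rw [e, pow_mul, hq]
    ring

/-- Every odd residue modulo `2 ^ (J + 3)` is `3 ^ k m` with `m = 1` or `m = 5`, `k < 2 ^ (J + 1)`. -/
lemma hit (J : ℕ) (a : ℕ) (ha : a % 2 = 1) :
    ∃ k < 2 ^ (J + 1), ∃ m : ℕ, (m = 1 ∨ m = 5) ∧ 3 ^ k * m ≡ a [MOD 2 ^ (J + 3)] := by
  induction J with
  | zero =>
    have h : a % 8 = 1 ∨ a % 8 = 3 ∨ a % 8 = 5 ∨ a % 8 = 7 := by omega
    have e : (2 : ℕ) ^ (0 + 3) = 8 := by norm_num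
    rw [e]
    rcases h with h | h | h | h
    · exact ⟨0, by norm_num, 1, Or.inl rfl, by unfold Nat.ModEq; omega⟩
    · exact ⟨1, by norm_num, 1, Or.inl rfl, by unfold Nat.ModEq; omega⟩
    · exact ⟨0, by norm_num, 5, Or.inr rfl, by unfold Nat.ModEq; omega⟩
    · exact ⟨1, by norm_num, 5, Or.inr rfl, by unfold Nat.ModEq; omega⟩
  | succ J ih =>
    obtain ⟨k, hk, m, hm, h⟩ := ih
    by_cases h2 : 3 ^ k * m ≡ a [MOD 2 ^ (J + 1 + 3)]
    · exact ⟨k, by rw [pow_succ]; omega, m, hm, h2⟩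
    · refine ⟨k + 2 ^ (J + 1), by rw [pow_succ 2 (J + 1)]; omega, m, hm, ?_⟩
      obtain ⟨q, hq⟩ := three_pow J
      rw [pow_add 3 k, hq]
      -- work modulo `2 * N`, `N = 2 ^ (J + 3)`
      have e : (2 : ℕ) ^ (J + 1 + 3) = 2 * 2 ^ (J + 3) := by ring
      rw [e] at h2 ⊢
      set N := 2 ^ (J + 3) with hN
      set b := 3 ^ k * m with hb
      have hbodd : b % 2 = 1 := by
        have h3 : b ≡ a [MOD 2] := h.of_dvd (by rw [hN]; exact dvd_pow_self 2 (by omega))
        have h4 : b % 2 = a % 2 := h3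
        omega
      obtain ⟨c, hc⟩ : ∃ c, b = 2 * c + 1 := ⟨b / 2, by omega⟩
      have e2 : 3 ^ k * (1 + N * (2 * q + 1)) * m = b + N + 2 * N * (c + q * b) := by
        have : 3 ^ k * (1 + N * (2 * q + 1)) * m = b * (1 + N * (2 * q + 1)) := by rw [hb]; ring
        rw [this]
        have : b * (1 + N * (2 * q + 1)) = b + N * b + 2 * N * (q * b) := by ring
        rw [this]
        have : N * b = N + 2 * N * c := by rw [hc]; ring
        rw [this]; ring
      rw [e2]
      unfold Nat.ModEq at h h2 ⊢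
      rw [Nat.add_mul_mod_self_left]
      have hNpos : 0 < N := by positivity
      -- `b mod 2N` and `a mod 2N` differ by `N`
      have hb1 := Nat.mod_mul_left_mod b 2 N
      have ha1 := Nat.mod_mul_left_mod a 2 N
      have hb2 : b % (2 * N) < 2 * N := Nat.mod_lt _ (by omega)
      have ha2 : a % (2 * N) < 2 * N := Nat.mod_lt _ (by omega)
      set B := b % (2 * N) with hB
      set A := a % (2 * N) with hA
      have hAB : B % N = A % N := by omega
      have h5 : (b + N) % (2 * N) = (B + N) % (2 * N) := by rw [hB, Nat.mod_add_mod]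
      rw [h5]
      have hBd : B = B % N ∨ B = B % N + N := by
        have h6 := Nat.div_add_mod B N
        have h7 : B / N < 2 := by rw [Nat.div_lt_iff_lt_mul hNpos]; exact hb2
        have h8 : B / N = 0 ∨ B / N = 1 := by
          rcases Nat.lt_or_ge (B / N) 1 with h9 | h9
          · left; exact Nat.lt_one_iff.1 h9
          · right; exact le_antisymm (Nat.lt_succ_iff.1 h7) h9
        rcases h8 with h8 | h8
        · rw [h8, Nat.mul_zero] at h6; left; omega
        · rw [h8, Nat.mul_one] at h6; right; omega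
      have hAd : A = A % N ∨ A = A % N + N := by
        have h6 := Nat.div_add_mod A N
        have h7 : A / N < 2 := by rw [Nat.div_lt_iff_lt_mul hNpos]; exact ha2
        have h8 : A / N = 0 ∨ A / N = 1 := by
          rcases Nat.lt_or_ge (A / N) 1 with h9 | h9
          · left; exact Nat.lt_one_iff.1 h9
          · right; exact le_antisymm (Nat.lt_succ_iff.1 h7) h9
        rcases h8 with h8 | h8
        · rw [h8, Nat.mul_zero] at h6; left; omega
        · rw [h8, Nat.mul_one] at h6; right; omega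
      have hlt : B % N < N := Nat.mod_lt _ hNpos
      rcases hBd with hBd | hBd <;> rcases hAd with hAd | hAd
      · exact absurd (by omega) h2
      · rw [Nat.mod_eq_of_lt (by omega)]; omega
      · have : B + N = A + 2 * N := by omega
        rw [this, Nat.add_mod_right, Nat.mod_eq_of_lt ha2]
      · exact absurd (by omega) h2

/-- the same with `k` in any window -/
lemma hit_window (J : ℕ) (a : ℕ) (ha : a % 2 = 1) (K : ℕ) :
    ∃ k, K ≤ k ∧ k < K + 2 ^ (J + 1) ∧ ∃ m : ℕ, (m = 1 ∨ m = 5) ∧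
      3 ^ k * m ≡ a [MOD 2 ^ (J + 3)] := by
  obtain ⟨k, hk, m, hm, h⟩ := hit J a ha
  set P := 2 ^ (J + 1) with hP
  have hPpos : 0 < P := by positivity
  obtain ⟨q, hq⟩ := three_pow J
  -- shift by a multiple of the period
  have hper : ∀ t : ℕ, 3 ^ (k + P * t) * m ≡ a [MOD 2 ^ (J + 3)] := by
    intro t
    rw [pow_add 3 k, pow_mul, hq]
    have h1 : (1 + 2 ^ (J + 3) * (2 * q + 1)) ^ t ≡ 1 ^ t [MOD 2 ^ (J + 3)] := by
      apply Nat.ModEq.pow
      unfold Nat.ModEq
      rw [Nat.add_mul_mod_self_left]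
    rw [one_pow] at h1
    have h2 := ((h1.mul_left (3 ^ k)).mul_right m)
    rw [mul_one] at h2
    exact h2.trans h
  -- the least `t` with `K ≤ k + P t`
  obtain ⟨t, ht1, ht2⟩ : ∃ t, K ≤ k + P * t ∧ k + P * t < K + P := by
    rcases Nat.lt_or_ge k K with h1 | h1
    · refine ⟨(K - k + P - 1) / P, ?_, ?_⟩
      · have h3 := Nat.div_add_mod (K - k + P - 1) P
        have h4 := Nat.mod_lt (K - k + P - 1) hPpos
        omega
      · have h3 := Nat.div_add_mod (K - k + P - 1) P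
        omega
    · exact ⟨0, by omega, by omega⟩
  exact ⟨k + P * t, ht1, ht2, m, hm, hper t⟩

/-- After the climb of `2 ^ k m - 1` and one even step every continuation is possible. -/
theorem continuation (J : ℕ) (w : ℕ → ℕ) (hw : ∀ i, w i = 0 ∨ w i = 1) (K : ℕ) :
    ∃ k, K ≤ k ∧ k < K + 2 ^ (J + 1) ∧ ∃ m : ℕ, (m = 1 ∨ m = 5) ∧
      (∀ i < k, T^[i] (2 ^ k * m - 1) % 2 = 1) ∧ T^[k] (2 ^ k * m - 1) = 3 ^ k * m - 1 ∧
      T^[k] (2 ^ k * m - 1) % 2 = 0 ∧
      ∀ i < J + 2, T^[k + 1 + i] (2 ^ k * m - 1) % 2 = w i := by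
  obtain ⟨r, hr⟩ := terras (J + 2) w hw
  obtain ⟨k, hk1, hk2, m, hm, h⟩ := hit_window J (2 * r + 1) (by omega) K
  have hm1 : 1 ≤ m := by omega
  have hmodd : m % 2 = 1 := by omega
  have htop : T^[k] (2 ^ k * m - 1) = 3 ^ k * m - 1 := by
    rw [iter_climb k m hm1 k le_rfl]; simp
  have hodd3 : (3 ^ k * m) % 2 = 1 := by
    have : Odd (3 ^ k * m) := Odd.mul (Odd.pow (by decide)) (Nat.odd_iff.2 hmodd)
    exact Nat.odd_iff.1 this
  refine ⟨k, hk1, hk2, m, hm, ?_, htop, ?_, ?_⟩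
  · intro i hi
    rw [iter_climb k m hm1 i hi.le]
    obtain ⟨j, hj⟩ : ∃ j, k - i = j + 1 := ⟨k - i - 1, by omega⟩
    rw [hj]
    have e : 3 ^ i * 2 ^ (j + 1) * m = 2 * (3 ^ i * 2 ^ j * m) := by ring
    have h1 : 1 ≤ 3 ^ i * 2 ^ j * m := Nat.one_le_iff_ne_zero.2 (by positivity)
    rw [e]; omega
  · rw [htop]; omega
  · intro i hi
    rw [add_comm (k + 1) i, Function.iterate_add_apply, Function.iterate_succ_apply', htop]
    have h1 : 1 ≤ 3 ^ k * m := Nat.one_le_iff_ne_zero.2 (by positivity)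
    obtain ⟨y, hy⟩ : ∃ y, 3 ^ k * m = 2 * y + 1 := ⟨3 ^ k * m / 2, by omega⟩
    have e : 3 ^ k * m - 1 = 2 * y := by omega
    rw [e, T_even]
    apply hr _ _ _ hi
    rw [hy] at h
    have h2 : 2 * y ≡ 2 * r [MOD 2 ^ (J + 3)] := Nat.ModEq.add_right_cancel' 1 h
    have e3 : (2 : ℕ) ^ (J + 3) = 2 * 2 ^ (J + 2) := by ring
    rw [e3] at h2
    exact Nat.ModEq.mul_left_cancel' (by norm_num) h2

end Pool.Agent.L5helper95.Climb
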