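import Pool.Agent.L5helper95.Climb1

set_option autoImplicit false

namespace Pool.Agent.L5helper95.Climb

/-- a run of `L` odd steps multiplies `y + 1` by `(3/2)^L` -/
lemma odd_run (L : ℕ) (y : ℕ) (h : ∀ i < L, T^[i] y % 2 = 1) :
    2 ^ L * (T^[L] y + 1) = 3 ^ L * (y + 1) := by
  induction L with
  | zero => simp
  | succ L ih =>
    have h1 := ih (fun i hi => h i (by omega))
    have h2 := h L (by omega)
    rw [Function.iterate_succ_apply']
    obtain ⟨z, hz⟩ : ∃ z, T^[L] y = 2 * z + 1 := ⟨T^[L] y / 2, by omega⟩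
    rw [hz] at h1 ⊢
    rw [T_odd]
    have e1 : 2 ^ (L + 1) * (3 * z + 2 + 1) = 3 * (2 ^ L * (2 * z + 1 + 1)) := by ring
    rw [e1, h1]
    ring

lemma logb_two_three_pos : 0 < Real.logb 2 3 := Real.logb_pos (by norm_num) (by norm_num)

lemma logb_two_three_lt : Real.logb 2 3 ≤ 2 := by
  rw [Real.logb_le_iff_le_rpow (by norm_num) (by norm_num)]
  norm_num

lemma logb_three_half : Real.logb 2 (3 / 2) = Real.logb 2 3 - 1 := by
  rw [Real.logb_div (by norm_num) (by norm_num), Real.logb_self_eq_one (by norm_num)]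

/-- Infinitely many starting values climb to `c n ^ (log_2 3) (log_2 n) ^ (log_2 (3/2))`. -/
theorem beyond : ∀ N : ℕ, ∃ n ≥ N, ∃ j : ℕ,
    (1 / 60 : ℝ) * (n : ℝ) ^ (Real.logb 2 3) * (Real.logb 2 n) ^ (Real.logb 2 (3 / 2)) ≤
      ((T^[j] n : ℕ) : ℝ) := by
  intro N
  set J := N + 1 with hJ
  obtain ⟨k, hk1, hk2, m, hm, -, htop, heven, hw⟩ :=
    continuation J (fun _ => 1) (fun _ => Or.inr rfl) (2 ^ (J + 1))
  have hm1 : 1 ≤ m := by omega
  have hm5 : m ≤ 5 := by omega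
  have h2J : J + 1 < 2 ^ (J + 1) := Nat.lt_two_pow_self
  have hkN : N ≤ k := by omega
  have hk2' : k < 2 ^ (J + 2) := by
    have : (2 : ℕ) ^ (J + 2) = 2 ^ (J + 1) + 2 ^ (J + 1) := by ring
    omega
  have hk4 : 4 ≤ k := by
    have : (2 : ℕ) ^ 2 ≤ 2 ^ (J + 1) := Nat.pow_le_pow_right (by norm_num) (by omega)
    omega
  have hkp : k < 2 ^ k := Nat.lt_two_pow_self
  have hkm : 2 ^ k ≤ 2 ^ k * m := Nat.le_mul_of_pos_right _ hm1
  set n := 2 ^ k * m - 1 with hn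
  have hnN : N ≤ n := by omega
  refine ⟨n, hnN, k + 1 + (J + 2), ?_⟩
  -- the run of odd steps
  have hT1 : 2 * T^[k + 1] n = 3 ^ k * m - 1 := by
    rw [Function.iterate_succ_apply']
    obtain ⟨z, hz⟩ : ∃ z, T^[k] n = 2 * z := ⟨T^[k] n / 2, by omega⟩
    rw [hz, T_even, ← hz, htop]
  have hrun := odd_run (J + 2) (T^[k + 1] n) (fun i hi => by
    have := hw i hi
    rwa [add_comm (k + 1) i, Function.iterate_add_apply] at this)
  rw [← Function.iterate_add_apply, add_comm (J + 2) (k + 1)] at hrun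
  set Z := T^[k + 1 + (J + 2)] n with hZ
  set y := T^[k + 1] n with hy
  have h3k : 1 ≤ 3 ^ k * m := Nat.one_le_iff_ne_zero.2 (by positivity)
  have hyR : (2 : ℝ) * y = 3 ^ k * m - 1 := by
    have : 2 * y + 1 = 3 ^ k * m := by omega
    have h' : ((2 * y + 1 : ℕ) : ℝ) = ((3 ^ k * m : ℕ) : ℝ) := by rw [this]
    push_cast at h'
    linarith
  have hrunR : (2 : ℝ) ^ (J + 2) * (Z + 1) = 3 ^ (J + 2) * (y + 1) := by exact_mod_cast hrun
  -- real exponents
  set a := Real.logb 2 3 with ha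
  have ha0 : 0 < a := logb_two_three_pos
  have ha2 : a ≤ 2 := logb_two_three_lt
  have ha1 : 1 ≤ a := by
    rw [ha, Real.le_logb_iff_rpow_le (by norm_num) (by norm_num)]; norm_num
  rw [logb_three_half]
  have h2a : (2 : ℝ) ^ a = 3 := Real.rpow_logb (by norm_num) (by norm_num) (by norm_num)
  have hkR : (4 : ℝ) ≤ k := by exact_mod_cast hk4
  have hmR1 : (1 : ℝ) ≤ m := by exact_mod_cast hm1
  have hmR5 : (m : ℝ) ≤ 5 := by exact_mod_cast hm5
  have hnR : (n : ℝ) ≤ 2 ^ k * m := by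
    have : n ≤ 2 ^ k * m := by omega
    exact_mod_cast this
  have hn1 : 1 ≤ n := by omega
  have hn1R : (1 : ℝ) ≤ n := by exact_mod_cast hn1
  -- `n ^ a ≤ 3 ^ k m ^ a ≤ 5 * 3 ^ k m`
  have hna : (n : ℝ) ^ a ≤ 5 * (3 ^ k * m) := by
    calc (n : ℝ) ^ a ≤ (2 ^ k * m) ^ a := Real.rpow_le_rpow (by positivity) hnR ha0.le
      _ = 3 ^ k * (m : ℝ) ^ a := by
          rw [Real.mul_rpow (by positivity) (by positivity), ← Real.rpow_natCast 2 k,
            ← Real.rpow_mul (by norm_num), mul_comm (k : ℝ) a, Real.rpow_mul (by norm_num), h2a,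
            Real.rpow_natCast]
      _ ≤ 3 ^ k * (5 * m) := by
          apply mul_le_mul_of_nonneg_left _ (by positivity)
          calc (m : ℝ) ^ a ≤ (m : ℝ) ^ (2 : ℝ) := Real.rpow_le_rpow_of_exponent_le hmR1 ha2
            _ = m * m := by rw [Real.rpow_two]; ring
            _ ≤ 5 * m := by nlinarith
      _ = 5 * (3 ^ k * m) := by ring
  -- `(log_2 n) ^ (a - 1) ≤ 4 (3/2) ^ (J + 2)`
  have hlog : Real.logb 2 n ≤ 2 * k := by
    rw [Real.logb_le_iff_le_rpow (by norm_num) (by linarith)]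
    have h1 : (2 : ℝ) ^ (2 * (k : ℝ)) = 2 ^ k * 2 ^ k := by
      rw [two_mul, Real.rpow_add (by norm_num), Real.rpow_natCast]
    rw [h1]
    refine hnR.trans ?_
    apply mul_le_mul_of_nonneg_left _ (by positivity)
    have h2 : (2 : ℝ) ^ 4 ≤ 2 ^ k := pow_le_pow_right₀ (by norm_num) hk4
    norm_num at h2
    linarith
  have hlog0 : 0 ≤ Real.logb 2 n := Real.logb_nonneg (by norm_num) hn1R
  have hloga : (Real.logb 2 n) ^ (a - 1) ≤ 2 * (3 / 2) ^ (J + 2) := by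
    have hk2R : (k : ℝ) ≤ 2 ^ (J + 2) := by exact_mod_cast hk2'.le
    calc (Real.logb 2 n) ^ (a - 1) ≤ (2 * 2 ^ (J + 2)) ^ (a - 1) :=
          Real.rpow_le_rpow hlog0 (by linarith) (by linarith)
      _ = 2 ^ (a - 1) * (3 / 2) ^ (J + 2) := by
          have e1 : ((2 : ℝ) ^ (J + 2)) ^ (a - 1) = (3 / 2) ^ (J + 2) := by
            rw [← Real.rpow_natCast 2 (J + 2), ← Real.rpow_mul (by norm_num),
              mul_comm ((J + 2 : ℕ) : ℝ) (a - 1), Real.rpow_mul (by norm_num),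
              Real.rpow_sub (by norm_num), h2a, Real.rpow_one, Real.rpow_natCast]
          rw [Real.mul_rpow (by positivity) (by positivity), e1]
      _ ≤ 2 * (3 / 2) ^ (J + 2) := by
          apply mul_le_mul_of_nonneg_right _ (by positivity)
          rw [Real.rpow_sub (by norm_num), h2a, Real.rpow_one]
          norm_num
  -- the value reached
  have hZ1 : (Z : ℝ) + 1 = (3 / 2) ^ (J + 2) * ((3 ^ k * m + 1) / 2) := by
    have h2p : (2 : ℝ) ^ (J + 2) ≠ 0 := by positivity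
    have : (Z : ℝ) + 1 = 3 ^ (J + 2) * (y + 1) / 2 ^ (J + 2) := by
      rw [eq_div_iff h2p, ← hrunR]; ring
    rw [this, div_pow]
    have : (y : ℝ) + 1 = (3 ^ k * m + 1) / 2 := by linarith
    rw [this]; ring
  have h3 : (1 : ℝ) ≤ (3 / 2) ^ (J + 2) := one_le_pow₀ (by norm_num)
  have h4 : (3 : ℝ) ≤ 3 ^ k * m := by
    have : (3 : ℝ) ^ 1 ≤ 3 ^ k := pow_le_pow_right₀ (by norm_num) (by omega)
    nlinarith
  set P := ((3 : ℝ) / 2) ^ (J + 2) with hP
  set Q := (3 : ℝ) ^ k * m with hQ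
  have hna0 : 0 ≤ (n : ℝ) ^ a := by positivity
  have h5 : (n : ℝ) ^ a * (Real.logb 2 n) ^ (a - 1) ≤ (5 * Q) * (2 * P) :=
    mul_le_mul hna hloga (Real.rpow_nonneg hlog0 _) (by positivity)
  have h6 : P * Q ≥ 3 := by nlinarith
  nlinarith

end Pool.Agent.L5helper95.Climb
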