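import Pool.Agent.H828R3.Exc.WL

set_option autoImplicit false

namespace Pool.Agent.L5helper95.Exc

open Finset Pool.Agent.Helper894.Collatz Pool.Agent.H828R3.Exc

open scoped Classical in
/-- optional stopping, the other direction -/
theorem doob (lam : ℝ) (J : ℕ) :
    0 ≤ ∑ n ∈ range (2 ^ J), (if PP lam J n then MM J n - lam else 0) := by
  induction J with
  | zero =>
    simp only [pow_zero, range_one, sum_singleton]
    split_ifs with h
    · obtain ⟨j, hj, h⟩ := h
      have : j = 0 := by omega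
      subst this
      simp only [pow_zero, mul_one, od, range_zero, sum_empty] at h
      simp [MM, od]
      linarith
    · exact le_rfl
  | succ J ih =>
    have h : ∑ x ∈ range (2 ^ J), 2 * (if PP lam J x then MM J x - lam else 0) ≤
        ∑ x ∈ range (2 ^ (J + 1)), (if PP lam (J + 1) x then MM (J + 1) x - lam else 0) := by
      rw [pow_succ, mul_two, sum_range_add, ← sum_add_distrib]
      apply sum_le_sum
      intro x _
      rw [add_comm (2 ^ J) x]
      obtain ⟨c1, c2, c3⟩ := MM_children J x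
      have hs : PP lam J (x + 2 ^ J) ↔ PP lam J x := by
        have := PP_shift lam J x 1
        rwa [mul_one] at this
      by_cases hp : PP lam J x
      · have hp1 : PP lam (J + 1) x := (PP_succ lam J x).2 (Or.inl hp)
        have hp2 : PP lam (J + 1) (x + 2 ^ J) := (PP_succ lam J _).2 (Or.inl (hs.2 hp))
        rw [if_pos hp1, if_pos hp2, if_pos hp]
        linarith
      · rw [if_neg hp, mul_zero]
        have key : ∀ y : ℕ, ¬ PP lam J y →
            0 ≤ (if PP lam (J + 1) y then MM (J + 1) y - lam else 0) := by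
          intro y hy
          split_ifs with h1
          · rcases (PP_succ lam J y).1 h1 with h2 | h2
            · exact absurd h2 hy
            · rw [ge_iff] at h2; linarith
          · exact le_rfl
        have a1 := key x hp
        have a2 := key (x + 2 ^ J) (fun h => hp (hs.1 h))
        linarith
    rw [← mul_sum] at h
    linarith

theorem sum_MM (J : ℕ) : ∑ n ∈ range (2 ^ J), MM J n = 2 ^ J := by
  have h2J : (0 : ℝ) < 2 ^ J := by positivity
  unfold MM
  rw [← sum_div, sum_pow_od J 3]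
  rw [div_eq_iff h2J.ne', ← mul_pow]
  norm_num

open scoped Classical in
/-- maximal inequality -/
theorem card_PP_le {lam : ℝ} (hlam : 0 < lam) (J : ℕ) :
    (((range (2 ^ J)).filter fun n => PP lam J n).card : ℝ) ≤ 2 ^ J / lam := by
  have h := doob lam J
  rw [sum_ite, sum_const_zero, add_zero, sum_sub_distrib, sum_const, nsmul_eq_mul] at h
  have h2 : ∑ n ∈ (range (2 ^ J)).filter (fun n => PP lam J n), MM J n ≤ 2 ^ J := by
    rw [← sum_MM J]
    exact sum_le_sum_of_subset_of_nonneg (filter_subset _ _) (fun n _ _ => (MM_pos J n).le)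
  rw [le_div_iff₀ hlam]
  linarith

open scoped Classical in
/-- the number of the words with an excursion at least `lam`, in the sharp range -/
theorem count_PP' {lam : ℝ} (hlam : 1 ≤ lam) {J : ℕ} {s : ℝ} (hs0 : 0 < s) (hs1 : s < 1)
    (hJ : lam ^ s * ((1 + (3 : ℝ) ^ (1 - s)) / (2 * (2 : ℝ) ^ (1 - s))) ^ J ≤ 1 / 2) :
    (2 : ℝ) ^ J / (3 * lam) ≤ (((range (2 ^ J)).filter fun n => PP lam J n).card : ℝ) := by
  have hlam0 : 0 < lam := by linarith
  have h2J : (0 : ℝ) < 2 ^ J := by positivity
  have htot := sum_MM J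
  have h2s : (0 : ℝ) < (2 : ℝ) ^ (1 - s) := by positivity
  have hhalf : ∑ n ∈ range (2 ^ J), (MM J n) ^ (1 - s) =
      2 ^ J * ((1 + (3 : ℝ) ^ (1 - s)) / (2 * (2 : ℝ) ^ (1 - s))) ^ J := by
    have e : ∀ n ∈ range (2 ^ J), (MM J n) ^ (1 - s) =
        ((3 : ℝ) ^ (1 - s)) ^ od J n / ((2 : ℝ) ^ (1 - s)) ^ J := by
      intro n _
      unfold MM
      rw [Real.div_rpow (by positivity) (by positivity)]
      congr 1
      · rw [← Real.rpow_natCast, ← Real.rpow_mul (by norm_num), mul_comm, Real.rpow_mul (by norm_num),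
          Real.rpow_natCast]
      · rw [← Real.rpow_natCast, ← Real.rpow_mul (by norm_num), mul_comm, Real.rpow_mul (by norm_num),
          Real.rpow_natCast]
    rw [sum_congr rfl e, ← sum_div, sum_pow_od, ← div_pow, ← mul_pow]
    congr 1
    field_simp
  have hstop := stop hlam J
  rw [sum_ite, sum_const_zero, add_zero, sum_sub_distrib, sum_const, nsmul_eq_mul] at hstop
  set G := (range (2 ^ J)).filter fun n => PP lam J n with hG
  have hsplit : ∑ n ∈ range (2 ^ J), MM J n
      = ∑ n ∈ G, MM J n + ∑ n ∈ (range (2 ^ J)).filter (fun n => ¬ PP lam J n), MM J n :=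
    (sum_filter_add_sum_filter_not _ _ _).symm
  have hrest : ∑ n ∈ (range (2 ^ J)).filter (fun n => ¬ PP lam J n), MM J n ≤ 2 ^ J / 2 := by
    calc ∑ n ∈ (range (2 ^ J)).filter (fun n => ¬ PP lam J n), MM J n
        ≤ ∑ n ∈ (range (2 ^ J)).filter (fun n => ¬ PP lam J n), lam ^ s * (MM J n) ^ (1 - s) := by
          apply sum_le_sum
          intro n hn
          have hM : MM J n ≤ lam := by
            by_contra hcon
            push Not at hcon
            exact (mem_filter.1 hn).2 ⟨J, le_rfl, (ge_iff lam J n).2 hcon.le⟩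
          have h0 := MM_pos J n
          calc MM J n = (MM J n) ^ s * (MM J n) ^ (1 - s) := by
                rw [← Real.rpow_add h0]; simp
            _ ≤ lam ^ s * (MM J n) ^ (1 - s) :=
              mul_le_mul_of_nonneg_right (Real.rpow_le_rpow h0.le hM hs0.le)
                (Real.rpow_nonneg h0.le _)
      _ ≤ ∑ n ∈ range (2 ^ J), lam ^ s * (MM J n) ^ (1 - s) :=
          sum_le_sum_of_subset_of_nonneg (filter_subset _ _)
            (fun n _ _ => mul_nonneg (Real.rpow_nonneg hlam0.le _) (Real.rpow_nonneg (MM_pos J n).le _))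
      _ = lam ^ s * ∑ n ∈ range (2 ^ J), (MM J n) ^ (1 - s) := by rw [mul_sum]
      _ = 2 ^ J * (lam ^ s * ((1 + (3 : ℝ) ^ (1 - s)) / (2 * (2 : ℝ) ^ (1 - s))) ^ J) := by
          rw [hhalf]; ring
      _ ≤ 2 ^ J * (1 / 2) := mul_le_mul_of_nonneg_left hJ h2J.le
      _ = _ := by ring
  rw [htot] at hsplit
  rw [div_le_iff₀ (by positivity)]
  nlinarith

/-- the tilt: `2^(θ s) (1 + 3^(1-s)) < 4` for some small `s > 0` if `θ < (3/4) log_2 3` -/
theorem tilt {θ : ℝ} (hθ : θ < 3 / 4 * Real.logb 2 3) : ∃ s : ℝ, 0 < s ∧ s < 1 ∧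
    (2 : ℝ) ^ (θ * s) * (1 + (3 : ℝ) ^ (1 - s)) < 4 := by
  have hl2 : 0 < Real.log 2 := Real.log_pos (by norm_num)
  have hl3 : 0 < Real.log 3 := Real.log_pos (by norm_num)
  set f : ℝ → ℝ := fun s => (2 : ℝ) ^ (θ * s) * (1 + (3 : ℝ) ^ (1 - s)) with hf
  have hd : HasDerivAt f (θ * Real.log 2 * 4 - 3 * Real.log 3) 0 := by
    have h1 : HasDerivAt (fun s : ℝ => (2 : ℝ) ^ (θ * s)) (Real.log 2 * (θ * 1) * (2 : ℝ) ^ (θ * 0)) 0 :=
      ((hasDerivAt_id (0 : ℝ)).const_mul θ).const_rpow (by norm_num)
    have h2 : HasDerivAt (fun s : ℝ => (3 : ℝ) ^ (1 - s)) (Real.log 3 * (-1) * (3 : ℝ) ^ (1 - (0 : ℝ))) 0 :=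
      ((hasDerivAt_id (0 : ℝ)).const_sub 1).const_rpow (by norm_num)
    have h3 := h1.mul (h2.const_add 1)
    have e : Real.log 2 * (θ * 1) * (2 : ℝ) ^ (θ * 0) * (1 + (3 : ℝ) ^ (1 - (0 : ℝ))) +
        (2 : ℝ) ^ (θ * 0) * (Real.log 3 * (-1) * (3 : ℝ) ^ (1 - (0 : ℝ))) =
        θ * Real.log 2 * 4 - 3 * Real.log 3 := by
      rw [mul_zero, Real.rpow_zero, sub_zero, Real.rpow_one]; ring
    rw [e] at h3
    exact h3
  have hneg : θ * Real.log 2 * 4 - 3 * Real.log 3 < 0 := by
    have : θ * Real.log 2 < 3 / 4 * Real.log 3 := by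
      have h1 := mul_lt_mul_of_pos_right hθ hl2
      rwa [Real.logb, mul_assoc, div_mul_cancel₀ _ hl2.ne'] at h1
    linarith
  have hf0 : f 0 = 4 := by simp [hf]; norm_num
  have ht := hd.tendsto_slope_zero_right
  have hev := ht.eventually_lt_const hneg
  have hev2 : ∀ᶠ s : ℝ in nhdsWithin 0 (Set.Ioi 0), s < 1 :=
    (eventually_nhdsWithin_of_eventually_nhds (eventually_lt_nhds (by norm_num)))
  have hev3 : ∀ᶠ s : ℝ in nhdsWithin 0 (Set.Ioi 0), 0 < s := eventually_mem_nhdsWithin
  obtain ⟨s, hs1, hs2, hs3⟩ := (hev.and (hev2.and hev3)).exists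
  refine ⟨s, hs3, hs2, ?_⟩
  rw [zero_add, hf0, smul_eq_mul] at hs1
  have h4 : f s - 4 < 0 := by
    by_contra hcon
    push Not at hcon
    have : 0 ≤ s⁻¹ * (f s - 4) := mul_nonneg (inv_nonneg.2 hs3.le) hcon
    linarith
  have : f s < 4 := by linarith
  exact this

/-- the number of the words with `m` odd terms -/
theorem card_od (J m : ℕ) : ((range (2 ^ J)).filter fun n => od J n = m).card = J.choose m := by
  induction J generalizing m with
  | zero =>
    rcases m with _ | m
    · simp [od]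
    · simp [od]
  | succ J ih =>
    rw [card_filter, pow_succ, mul_two, sum_range_add, ← sum_add_distrib]
    have key : ∀ x ∈ range (2 ^ J), ((if od (J + 1) x = m then 1 else 0) +
        (if od (J + 1) (2 ^ J + x) = m then 1 else 0) : ℕ) =
        (if od J x = m then 1 else 0) + (if od J x + 1 = m then 1 else 0) := by
      intro x _
      rw [add_comm (2 ^ J) x, od_succ, od_succ, flip_parity, od_shift]
      rcases Nat.mod_two_eq_zero_or_one (T^[J] x) with h | h
      · rw [h]; simp
      · rw [h]; simp [add_comm]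
    rw [sum_congr rfl key, sum_add_distrib, ← card_filter, ← card_filter, ih m]
    rcases m with _ | m
    · simp
    · have : ((range (2 ^ J)).filter fun x => od J x + 1 = m + 1) =
          (range (2 ^ J)).filter fun x => od J x = m := by
        apply filter_congr; intro x _; omega
      rw [this, ih m, Nat.choose_succ_succ, add_comm]

end Pool.Agent.L5helper95.Exc
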