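import Pool.Agent.L5helper95.Exc1
import Pool.Agent.H517R2.RS.BINE
import Pool.Agent.H517R2.RS.MODE

set_option autoImplicit false

namespace Pool.Agent.L5helper95.Exc

open Finset Pool.Agent.Helper894.Collatz Pool.Agent.H828R3.Exc

/-- the `n ≤ x` with a value `≥ V` among the times `k ≤ log_2 x` -/
def clim (x V : ℝ) : Set ℕ :=
  {n : ℕ | 1 ≤ n ∧ (n : ℝ) ≤ x ∧ ∃ k : ℕ, (2 : ℝ) ^ k ≤ x ∧ V ≤ ((T^[k] n : ℕ) : ℝ)}

theorem clim_finite (x V : ℝ) : (clim x V).Finite := by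
  apply (Set.finite_Icc 1 ⌊x⌋₊).subset
  rintro n ⟨h1, h2, -⟩
  exact ⟨h1, Nat.le_floor h2⟩

/-- the basic upper estimate -/
theorem iter_lt {M k n : ℕ} (hk : k ≤ M) (hn : n < 2 ^ M) :
    (2 : ℝ) ^ k * ((T^[k] n : ℕ) : ℝ) < 3 ^ od k n * 2 ^ M := by
  obtain ⟨d, rfl⟩ := Nat.exists_eq_add_of_le hk
  have h := lt_pow k n (2 ^ d) (by rwa [← pow_add])
  have h' : ((T^[k] n : ℕ) : ℝ) < 3 ^ od k n * 2 ^ d := by exact_mod_cast h
  calc (2 : ℝ) ^ k * ((T^[k] n : ℕ) : ℝ) < 2 ^ k * (3 ^ od k n * 2 ^ d) :=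
        mul_lt_mul_of_pos_left h' (by positivity)
    _ = _ := by rw [pow_add]; ring

/-- (1) the upper bound -/
theorem upper1 {x V : ℝ} (hx : 1 ≤ x) (hV : 0 < V) : ((clim x V).ncard : ℝ) ≤ 4 * x ^ 2 / V := by
  classical
  obtain ⟨M, hM1, hM2⟩ := exists_nat_pow_near hx (by norm_num : (1 : ℝ) < 2)
  have h2M : (0 : ℝ) < 2 ^ (M + 1) := by positivity
  set lam := V / 2 ^ (M + 1) with hlam
  have hlam0 : 0 < lam := by positivity
  have hsub : clim x V ⊆ ((range (2 ^ (M + 1))).filter fun n => PP lam (M + 1) n : Finset ℕ) := by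
    rintro n ⟨h1, h2, k, hk, hVk⟩
    have hn : n < 2 ^ (M + 1) := by
      have : (n : ℝ) < ((2 ^ (M + 1) : ℕ) : ℝ) := by push_cast; linarith
      exact_mod_cast this
    have hkM : k < M + 1 := by
      have : (2 : ℝ) ^ k < 2 ^ (M + 1) := by linarith
      exact (pow_lt_pow_iff_right₀ (by norm_num)).1 this
    simp only [coe_filter, mem_range, Set.mem_ofPred_eq]
    refine ⟨hn, k, hkM.le, ?_⟩
    have h3 := iter_lt hkM.le hn
    have h4 : (2 : ℝ) ^ k * V ≤ 2 ^ k * ((T^[k] n : ℕ) : ℝ) :=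
      mul_le_mul_of_nonneg_left hVk (by positivity)
    rw [hlam, div_mul_eq_mul_div, div_le_iff₀ h2M]
    linarith
  have h := card_PP_le hlam0 (M + 1)
  have h5 : ((clim x V).ncard : ℝ) ≤
      (((range (2 ^ (M + 1))).filter fun n => PP lam (M + 1) n).card : ℝ) := by
    have := Set.ncard_le_ncard hsub (Finset.finite_toSet _)
    rw [Set.ncard_coe_finset] at this
    exact_mod_cast this
  refine h5.trans (h.trans ?_)
  rw [hlam, div_div_eq_mul_div]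
  apply div_le_div_of_nonneg_right _ hV.le
  have : (2 : ℝ) ^ (M + 1) ≤ 2 * x := by rw [pow_succ]; linarith
  nlinarith

/-- the lower bound by words -/
theorem lower0 {x V : ℝ} {J : ℕ} (hJ : (2 : ℝ) ^ (J + 1) ≤ x) (S : Finset ℕ)
    (hS : S ⊆ range (2 ^ J)) (hP : ∀ r ∈ S, PP (V / 2 ^ J) J r) :
    (S.card : ℝ) ≤ ((clim x V).ncard : ℝ) := by
  have hinj : ∀ a b : ℕ, a + 2 ^ J = b + 2 ^ J → a = b := fun a b h => by omega
  have hcard : (S.image fun r => r + 2 ^ J).card = S.card :=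
    card_image_of_injective _ (fun a b h => hinj a b h)
  have hsub : ((S.image fun r => r + 2 ^ J : Finset ℕ) : Set ℕ) ⊆ clim x V := by
    intro n hn
    simp only [coe_image, Set.mem_image, mem_coe] at hn
    obtain ⟨r, hr, rfl⟩ := hn
    have hr2 : r < 2 ^ J := mem_range.1 (hS hr)
    obtain ⟨j, hj, h⟩ := hP r hr
    have h2J : (0 : ℝ) < 2 ^ J := by positivity
    have h1J : 1 ≤ 2 ^ J := Nat.one_le_two_pow
    refine ⟨by omega, ?_, j, ?_, ?_⟩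
    · have : ((r + 2 ^ J : ℕ) : ℝ) ≤ ((2 ^ (J + 1) : ℕ) : ℝ) := by
        have : r + 2 ^ J ≤ 2 ^ (J + 1) := by rw [pow_succ]; omega
        exact_mod_cast this
      push_cast at this ⊢
      linarith
    · have : (2 : ℝ) ^ j ≤ 2 ^ (J + 1) := pow_le_pow_right₀ (by norm_num) (by omega)
      linarith
    · have h3 := iter_eq j (r + 2 ^ J)
      have h4 : od j (r + 2 ^ J) = od j r := by
        have := od_shift_le hj r 1
        rwa [mul_one] at this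
      have h5 : 3 ^ od j r * 2 ^ J ≤ 2 ^ j * T^[j] (r + 2 ^ J) := by
        rw [h3, h4]
        have : 3 ^ od j r * 2 ^ J ≤ 3 ^ od j r * (r + 2 ^ J) := Nat.mul_le_mul_left _ (by omega)
        omega
      have h6 : (3 : ℝ) ^ od j r * 2 ^ J ≤ 2 ^ j * ((T^[j] (r + 2 ^ J) : ℕ) : ℝ) := by
        exact_mod_cast h5
      have h7 : V / 2 ^ J * 2 ^ j * 2 ^ J ≤ 3 ^ od j r * 2 ^ J := mul_le_mul_of_nonneg_right h h2J.le
      have h8 : V / 2 ^ J * 2 ^ j * 2 ^ J = 2 ^ j * V := by field_simp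
      rw [h8] at h7
      exact le_of_mul_le_mul_left (h7.trans h6) (by positivity)
  rw [← hcard, ← Set.ncard_coe_finset]
  exact_mod_cast Set.ncard_le_ncard hsub (clim_finite x V)

/-- (2) the lower bound in the range `V ≤ x ^ θ`, `θ < (3/4) log_2 3` -/
theorem lower1 {θ : ℝ} (hθ1 : 1 ≤ θ) (hθ : θ < 3 / 4 * Real.logb 2 3) :
    ∃ x₀ : ℝ, ∀ x : ℝ, x₀ ≤ x → ∀ V : ℝ, x ≤ V → V ≤ x ^ θ →
      x ^ 2 / (48 * V) ≤ ((clim x V).ncard : ℝ) := by
  classical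
  obtain ⟨s, hs0, hs1, hs⟩ := tilt hθ
  set ρ : ℝ := (2 : ℝ) ^ (θ * s) * (1 + (3 : ℝ) ^ (1 - s)) / 4 with hρ
  have hρ0 : 0 ≤ ρ := by positivity
  have hρ1 : ρ < 1 := by rw [hρ, div_lt_one (by norm_num)]; exact hs
  have hlim : Filter.Tendsto (fun J : ℕ => (2 : ℝ) ^ (2 * θ * s) * ρ ^ J) Filter.atTop (nhds 0) := by
    have := (tendsto_pow_atTop_nhds_zero_of_lt_one hρ0 hρ1).const_mul ((2 : ℝ) ^ (2 * θ * s))
    rwa [mul_zero] at this
  obtain ⟨J₀, hJ₀⟩ := Filter.eventually_atTop.1 (hlim.eventually_le_const (show (0 : ℝ) < 1 / 2 by norm_num))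
  refine ⟨2 ^ (J₀ + 1), fun x hx V hV1 hV2 => ?_⟩
  have hx1 : (1 : ℝ) ≤ x := le_trans (one_le_pow₀ (by norm_num)) hx
  obtain ⟨M, hM1, hM2⟩ := exists_nat_pow_near hx1 (by norm_num : (1 : ℝ) < 2)
  have hMJ : J₀ + 1 < M + 1 := by
    have : (2 : ℝ) ^ (J₀ + 1) < 2 ^ (M + 1) := by linarith
    exact (pow_lt_pow_iff_right₀ (by norm_num)).1 this
  obtain ⟨J, rfl⟩ : ∃ J, M = J + 1 := ⟨M - 1, by omega⟩
  have hJJ : J₀ ≤ J := by omega
  have hV0 : 0 < V := by linarith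
  have h2J : (0 : ℝ) < 2 ^ J := by positivity
  set lam := V / 2 ^ J with hlam
  have hlam1 : 1 ≤ lam := by
    rw [hlam, le_div_iff₀ h2J, one_mul]
    have : (2 : ℝ) ^ J ≤ 2 ^ (J + 1) := pow_le_pow_right₀ (by norm_num) (by omega)
    linarith
  have hx2 : x ≤ 2 ^ (J + 2) := hM2.le
  have hcond : lam ^ s * ((1 + (3 : ℝ) ^ (1 - s)) / (2 * (2 : ℝ) ^ (1 - s))) ^ J ≤ 1 / 2 := by
    have h1 : lam ≤ (2 : ℝ) ^ (2 * θ) * ((2 : ℝ) ^ (θ - 1)) ^ J := by
      rw [hlam, div_le_iff₀ h2J]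
      calc V ≤ x ^ θ := hV2
        _ ≤ ((2 : ℝ) ^ (J + 2)) ^ θ := Real.rpow_le_rpow (by linarith) hx2 (by linarith)
        _ = (2 : ℝ) ^ (2 * θ) * ((2 : ℝ) ^ (θ - 1)) ^ J * 2 ^ J := by
          rw [← Real.rpow_natCast, ← Real.rpow_mul (by norm_num), ← Real.rpow_natCast,
            ← Real.rpow_mul (by norm_num), ← Real.rpow_natCast, ← Real.rpow_add (by norm_num),
            ← Real.rpow_add (by norm_num)]
          congr 1
          push_cast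
          ring
    have h2 : lam ^ s ≤ (2 : ℝ) ^ (2 * θ * s) * (((2 : ℝ) ^ (θ - 1)) ^ s) ^ J := by
      calc lam ^ s ≤ ((2 : ℝ) ^ (2 * θ) * ((2 : ℝ) ^ (θ - 1)) ^ J) ^ s :=
            Real.rpow_le_rpow (by positivity) h1 hs0.le
        _ = _ := by
          rw [Real.mul_rpow (by positivity) (by positivity), ← Real.rpow_mul (by norm_num),
            Real.rpow_pow_comm (x := (2 : ℝ) ^ (θ - 1)) (by positivity) s J]
    have h3 : ((2 : ℝ) ^ (θ - 1)) ^ s * ((1 + (3 : ℝ) ^ (1 - s)) / (2 * (2 : ℝ) ^ (1 - s))) = ρ := by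
      have e : (2 : ℝ) ^ (θ * s) * (2 * (2 : ℝ) ^ (1 - s)) = ((2 : ℝ) ^ (θ - 1)) ^ s * 4 := by
        have e1 : (2 : ℝ) * (2 : ℝ) ^ (1 - s) = (2 : ℝ) ^ (2 - s) := by
          rw [show (2 : ℝ) - s = 1 + (1 - s) by ring, Real.rpow_add (by norm_num), Real.rpow_one]
        have e2 : (4 : ℝ) = (2 : ℝ) ^ (2 : ℝ) := by norm_num
        rw [e1, e2, ← Real.rpow_mul (by norm_num), ← Real.rpow_add (by norm_num),
          ← Real.rpow_add (by norm_num)]
        congr 1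
        ring
      have h2s : (0 : ℝ) < 2 * (2 : ℝ) ^ (1 - s) := by positivity
      rw [hρ, mul_div_assoc', div_eq_div_iff h2s.ne' (by norm_num)]
      linear_combination (-(1 + (3 : ℝ) ^ (1 - s))) * e
    have h4 := hJ₀ J hJJ
    calc lam ^ s * ((1 + (3 : ℝ) ^ (1 - s)) / (2 * (2 : ℝ) ^ (1 - s))) ^ J
        ≤ ((2 : ℝ) ^ (2 * θ * s) * (((2 : ℝ) ^ (θ - 1)) ^ s) ^ J) *
          ((1 + (3 : ℝ) ^ (1 - s)) / (2 * (2 : ℝ) ^ (1 - s))) ^ J :=
          mul_le_mul_of_nonneg_right h2 (by positivity)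
      _ = (2 : ℝ) ^ (2 * θ * s) * ρ ^ J := by
          rw [mul_assoc, ← mul_pow, h3]
      _ ≤ 1 / 2 := h4
  have h := count_PP' hlam1 hs0 hs1 hcond
  have hlow := lower0 (x := x) (V := V) (J := J) hM1 ((range (2 ^ J)).filter fun n => PP lam J n)
    (filter_subset _ _) (fun r hr => (mem_filter.1 hr).2)
  refine le_trans ?_ (h.trans hlow)
  have e : (2 : ℝ) ^ J / (3 * lam) = (2 ^ J * 2 ^ J) / (3 * V) := by
    rw [hlam]; field_simp
  rw [e, div_le_div_iff₀ (by positivity) (by positivity)]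
  have hx4 : x ≤ 4 * 2 ^ J := by
    have : (2 : ℝ) ^ (J + 2) = 4 * 2 ^ J := by rw [pow_add]; ring
    linarith
  have : x ^ 2 ≤ (4 * 2 ^ J) ^ 2 := by
    apply pow_le_pow_left₀ (by linarith) hx4
  nlinarith

/-- (4) nothing exceeds `2 x ^ (log_2 3)` -/
theorem top {x V : ℝ} (hx : 1 ≤ x) (hV : 2 * x ^ (Real.logb 2 3) ≤ V) : clim x V = ∅ := by
  rw [Set.eq_empty_iff_forall_notMem]
  rintro n ⟨h1, h2, k, hk, hVk⟩
  have size : ∀ a : ℕ, (2 : ℝ) ^ a * (((T^[a] n : ℕ) : ℝ) + 1) ≤ 3 ^ a * ((n : ℝ) + 1) := by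
    intro a
    induction a with
    | zero => simp
    | succ a ih =>
      rw [Function.iterate_succ_apply']
      set y := T^[a] n with hy
      have h3 : 2 * (T y + 1) ≤ 3 * (y + 1) := by
        unfold T; split_ifs <;> omega
      have h4 : (2 : ℝ) * (((T y : ℕ) : ℝ) + 1) ≤ 3 * ((y : ℝ) + 1) := by exact_mod_cast h3
      have h5 : (0 : ℝ) < 2 ^ a := by positivity
      calc (2 : ℝ) ^ (a + 1) * (((T y : ℕ) : ℝ) + 1) = 2 ^ a * (2 * (((T y : ℕ) : ℝ) + 1)) := by ring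
        _ ≤ 2 ^ a * (3 * ((y : ℝ) + 1)) := mul_le_mul_of_nonneg_left h4 h5.le
        _ = 3 * (2 ^ a * ((y : ℝ) + 1)) := by ring
        _ ≤ 3 * (3 ^ a * ((n : ℝ) + 1)) := by linarith
        _ = _ := by ring
  have h3 := size k
  have hx0 : 0 < x := by linarith
  have hk2 : (k : ℝ) ≤ Real.logb 2 x := by
    rw [Real.le_logb_iff_rpow_le (by norm_num) hx0, Real.rpow_natCast]; exact hk
  have h4 : ((3 : ℝ) / 2) ^ k ≤ x ^ (Real.logb 2 3 - 1) := by
    have e1 : x ^ (Real.logb 2 3 - 1) = ((3 : ℝ) / 2) ^ (Real.logb 2 x) := by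
      have e2 : x = (2 : ℝ) ^ (Real.logb 2 x) := (Real.rpow_logb (by norm_num) (by norm_num) hx0).symm
      have e3 : (3 : ℝ) / 2 = (2 : ℝ) ^ (Real.logb 2 3 - 1) := by
        rw [Real.rpow_sub (by norm_num), Real.rpow_logb (by norm_num) (by norm_num) (by norm_num),
          Real.rpow_one]
      rw [e3, ← Real.rpow_mul (by norm_num)]
      conv_lhs => rw [e2]
      rw [← Real.rpow_mul (by norm_num), mul_comm]
    rw [e1, ← Real.rpow_natCast]
    exact Real.rpow_le_rpow_of_exponent_le (by norm_num) hk2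
  have h5 : ((T^[k] n : ℕ) : ℝ) + 1 ≤ (3 / 2) ^ k * ((n : ℝ) + 1) := by
    rw [div_pow, div_mul_eq_mul_div, le_div_iff₀ (by positivity)]
    linarith
  have h6 : ((3 : ℝ) / 2) ^ k * ((n : ℝ) + 1) ≤ x ^ (Real.logb 2 3 - 1) * (x + x) :=
    mul_le_mul h4 (by linarith) (by positivity) (by positivity)
  have h7 : x ^ (Real.logb 2 3 - 1) * (x + x) = 2 * x ^ (Real.logb 2 3) := by
    rw [Real.rpow_sub hx0, Real.rpow_one]
    field_simp
    ring
  linarith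

end Pool.Agent.L5helper95.Exc
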