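import Pool.Agent.L5helper95.Exc2

set_option autoImplicit false

namespace Pool.Agent.L5helper95.Exc

open Finset Pool.Agent.Helper894.Collatz Pool.Agent.H828R3.Exc

/-- binary entropy in bits -/
noncomputable def H (β : ℝ) : ℝ := Real.binEntropy β / Real.log 2

theorem sum_blocks (k N : ℕ) (z : ℝ) :
    ∑ n ∈ range (2 ^ (k + N)), z ^ od k n = 2 ^ N * (1 + z) ^ k := by
  induction N with
  | zero => rw [add_zero, sum_pow_od]; ring
  | succ N ih =>
    have e : (2 : ℕ) ^ (k + (N + 1)) = 2 ^ (k + N) + 2 ^ (k + N) := by ring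
    rw [e, sum_range_add, ih]
    have h2 : ∑ n ∈ range (2 ^ (k + N)), z ^ od k (2 ^ (k + N) + n) =
        ∑ n ∈ range (2 ^ (k + N)), z ^ od k n := by
      apply sum_congr rfl
      intro n _
      have := od_shift_le (J := k + N) (j := k) (by omega) n 1
      rw [mul_one] at this
      rw [add_comm, this]
    rw [h2, ih, pow_succ]
    ring

theorem entropy_id {β : ℝ} (h0 : 0 < β) (h1 : β < 1) :
    H β = Real.logb 2 (1 + β / (1 - β)) - β * Real.logb 2 (β / (1 - β)) := by
  have h2 : 0 < 1 - β := by linarith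
  have e : 1 + β / (1 - β) = (1 - β)⁻¹ := by field_simp; ring
  unfold H Real.logb Real.binEntropy
  rw [e, Real.log_div h0.ne' h2.ne', Real.log_inv, Real.log_inv]
  ring

/-- `2 ^ (1 + t) < 1 + 3 ^ t` for `t > 1` -/
theorem convex_ineq {t : ℝ} (ht : 1 < t) : (2 : ℝ) ^ (1 + t) < 1 + 3 ^ t := by
  have h := (strictConvexOn_rpow ht).2 (x := 1) (y := 3) (by norm_num) (by norm_num) (by norm_num)
    (show (0 : ℝ) < 1 / 2 by norm_num) (show (0 : ℝ) < 1 / 2 by norm_num) (by norm_num)
  simp only [smul_eq_mul, Real.one_rpow] at h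
  have e : (1 / 2 * 1 + 1 / 2 * 3 : ℝ) = 2 := by norm_num
  rw [e] at h
  rw [Real.rpow_add (by norm_num), Real.rpow_one]
  linarith

/-- (3) upper bound in the entropy range -/
theorem upper3 {β : ℝ} (h0 : 3 / 4 < β) (h1 : β < 1) : ∃ C : ℝ, 0 < C ∧ ∀ x : ℝ, 1 ≤ x →
    ((clim x (x ^ (β * Real.logb 2 3))).ncard : ℝ) ≤ C * x ^ H β := by
  classical
  have hb : 0 < 1 - β := by linarith
  set z : ℝ := β / (1 - β) with hz
  have hz3 : 3 < z := by rw [hz, lt_div_iff₀ hb]; linarith
  have hz0 : 0 < z := by linarith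
  set t : ℝ := Real.logb 3 z with ht
  have ht1 : 1 < t := by
    rw [ht, Real.lt_logb_iff_rpow_lt (by norm_num) hz0, Real.rpow_one]; exact hz3
  have h3t : (3 : ℝ) ^ t = z := Real.rpow_logb (by norm_num) (by norm_num) hz0
  have hcv := convex_ineq ht1
  rw [h3t] at hcv
  set q : ℝ := (2 : ℝ) ^ (1 + t) / (1 + z) with hq
  have hq0 : 0 < q := by positivity
  have hq1 : q < 1 := by rw [hq, div_lt_one (by positivity)]; exact hcv
  refine ⟨(1 + z) / (1 - q), by have := sub_pos.2 hq1; positivity, fun x hx => ?_⟩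
  have hx0 : 0 < x := by linarith
  obtain ⟨M, hM1, hM2⟩ := exists_nat_pow_near hx (by norm_num : (1 : ℝ) < 2)
  set V : ℝ := x ^ (β * Real.logb 2 3) with hV
  have hV0 : 0 < V := by positivity
  have hVt : V ^ t = x ^ (β * Real.logb 2 z) := by
    rw [hV, ← Real.rpow_mul hx0.le]
    congr 1
    rw [mul_assoc]
    congr 1
    rw [ht, Real.logb, Real.logb, Real.logb]
    have : Real.log 3 ≠ 0 := (Real.log_pos (by norm_num)).ne'
    field_simp
  -- the sets for fixed `k`
  set F : ℕ → Finset ℕ := fun k =>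
    (range (2 ^ (M + 1))).filter fun n => V * 2 ^ k ≤ 3 ^ od k n * 2 ^ (M + 1) with hF
  have hsub : clim x V ⊆ ((range (M + 1)).biUnion F : Finset ℕ) := by
    rintro n ⟨h1, h2, k, hk, hVk⟩
    have hn : n < 2 ^ (M + 1) := by
      have : (n : ℝ) < ((2 ^ (M + 1) : ℕ) : ℝ) := by push_cast; linarith
      exact_mod_cast this
    have hkM : k < M + 1 := by
      have : (2 : ℝ) ^ k < 2 ^ (M + 1) := by linarith
      exact (pow_lt_pow_iff_right₀ (by norm_num)).1 this
    simp only [coe_biUnion, Set.mem_iUnion, mem_coe, mem_range, hF, mem_filter]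
    refine ⟨k, hkM, hn, ?_⟩
    have h3 := iter_lt hkM.le hn
    have h4 : (2 : ℝ) ^ k * V ≤ 2 ^ k * ((T^[k] n : ℕ) : ℝ) :=
      mul_le_mul_of_nonneg_left hVk (by positivity)
    linarith
  have hFk : ∀ k ∈ range (M + 1), ((F k).card : ℝ) ≤
      ((1 + z) ^ (M + 1) / V ^ t) * q ^ (M + 1 - k) := by
    intro k hk
    have hkM : k < M + 1 := mem_range.1 hk
    obtain ⟨N, hN⟩ : ∃ N, M + 1 = k + N := ⟨M + 1 - k, by omega⟩
    have hN' : M + 1 - k = N := by omega
    rw [hN']
    have h2N : (0 : ℝ) < 2 ^ N := by positivity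
    have hsum := sum_blocks k N z
    rw [← hN] at hsum
    have hle : ((F k).card : ℝ) * (V / 2 ^ N) ^ t ≤ 2 ^ N * (1 + z) ^ k := by
      rw [← hsum, ← nsmul_eq_mul, ← sum_const]
      calc ∑ n ∈ F k, (V / 2 ^ N) ^ t ≤ ∑ n ∈ F k, z ^ od k n := by
            apply sum_le_sum
            intro n hn
            have h4 := (mem_filter.1 hn).2
            have h5 : V / 2 ^ N ≤ 3 ^ od k n := by
              rw [div_le_iff₀ h2N]
              rw [hN, pow_add] at h4
              have h6 : (2 : ℝ) ^ k * V ≤ 2 ^ k * (3 ^ od k n * 2 ^ N) := by linarith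
              exact le_of_mul_le_mul_left h6 (by positivity)
            calc (V / 2 ^ N) ^ t ≤ ((3 : ℝ) ^ od k n) ^ t :=
                  Real.rpow_le_rpow (by positivity) h5 (by linarith)
              _ = z ^ od k n := by
                rw [← h3t, Real.rpow_pow_comm (by norm_num)]
        _ ≤ ∑ n ∈ range (2 ^ (M + 1)), z ^ od k n :=
          sum_le_sum_of_subset_of_nonneg (filter_subset _ _) (fun _ _ _ => by positivity)
    have hpos : (0 : ℝ) < (V / 2 ^ N) ^ t := by positivity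
    rw [← le_div_iff₀ hpos] at hle
    refine hle.trans (le_of_eq ?_)
    have e1 : (V / 2 ^ N) ^ t = V ^ t / ((2 : ℝ) ^ t) ^ N := by
      rw [Real.div_rpow hV0.le h2N.le, Real.rpow_pow_comm (by norm_num)]
    have e2 : q ^ N = 2 ^ N * ((2 : ℝ) ^ t) ^ N / (1 + z) ^ N := by
      rw [hq, Real.rpow_add (by norm_num), Real.rpow_one, div_pow, mul_pow]
    rw [e1, e2, hN, pow_add]
    have hVt0 : (0 : ℝ) < V ^ t := by positivity
    have h2t0 : (0 : ℝ) < ((2 : ℝ) ^ t) ^ N := by positivity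
    have hz10 : (0 : ℝ) < (1 + z) ^ N := by positivity
    field_simp
  have hcard : ((clim x V).ncard : ℝ) ≤ ∑ k ∈ range (M + 1), ((F k).card : ℝ) := by
    have h3 := Set.ncard_le_ncard hsub (Finset.finite_toSet _)
    rw [Set.ncard_coe_finset] at h3
    have h4 : ((range (M + 1)).biUnion F).card ≤ ∑ k ∈ range (M + 1), (F k).card := card_biUnion_le
    exact_mod_cast h3.trans h4
  have hgeo : ∑ k ∈ range (M + 1), q ^ (M + 1 - k) ≤ 1 / (1 - q) := by
    have e : ∑ k ∈ range (M + 1), q ^ (M + 1 - k) = ∑ k ∈ range (M + 1), q ^ (k + 1) := by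
      rw [← sum_range_reflect]
      apply sum_congr rfl
      intro k hk
      have := mem_range.1 hk
      congr 1
      omega
    rw [e]
    have hs : ∑ k ∈ range (M + 1), q ^ (k + 1) ≤ ∑ k ∈ range (M + 1), q ^ k :=
      sum_le_sum fun k _ => pow_le_pow_of_le_one hq0.le hq1.le (Nat.le_succ k)
    refine hs.trans ?_
    rw [geom_sum_eq hq1.ne, ← neg_div_neg_eq, neg_sub, neg_sub]
    apply div_le_div_of_nonneg_right _ (by linarith)
    have : 0 ≤ q ^ (M + 1) := by positivity
    linarith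
  have hA : (1 + z) ^ (M + 1) / V ^ t ≤ (1 + z) * x ^ H β := by
    have hM3 : (M : ℝ) ≤ Real.logb 2 x := by
      rw [Real.le_logb_iff_rpow_le (by norm_num) hx0, Real.rpow_natCast]; exact hM1
    have h4 : (1 + z) ^ M ≤ x ^ (Real.logb 2 (1 + z)) := by
      have e1 : x ^ (Real.logb 2 (1 + z)) = (1 + z) ^ (Real.logb 2 x) := by
        rw [Real.rpow_def_of_pos hx0, Real.rpow_def_of_pos (by positivity : 0 < 1 + z), Real.logb,
          Real.logb]
        congr 1
        ring
      rw [e1, ← Real.rpow_natCast]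
      exact Real.rpow_le_rpow_of_exponent_le (by linarith) hM3
    rw [hVt, entropy_id (by linarith) h1, ← hz, Real.rpow_sub hx0, pow_succ, mul_comm ((1 + z) ^ M),
      mul_div_assoc]
    apply mul_le_mul_of_nonneg_left _ (by positivity)
    exact div_le_div_of_nonneg_right h4 (by positivity)
  calc ((clim x V).ncard : ℝ) ≤ ∑ k ∈ range (M + 1), ((F k).card : ℝ) := hcard
    _ ≤ ∑ k ∈ range (M + 1), ((1 + z) ^ (M + 1) / V ^ t) * q ^ (M + 1 - k) := sum_le_sum hFk
    _ = ((1 + z) ^ (M + 1) / V ^ t) * ∑ k ∈ range (M + 1), q ^ (M + 1 - k) := by rw [mul_sum]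
    _ ≤ ((1 + z) * x ^ H β) * (1 / (1 - q)) :=
      mul_le_mul hA hgeo (sum_nonneg fun _ _ => by positivity) (by positivity)
    _ = _ := by ring

/-- (3) lower bound in the entropy range -/
theorem lower3 {β : ℝ} (h0 : 3 / 4 < β) (h1 : β < 1) : ∃ c x₀ : ℝ, 0 < c ∧ ∀ x : ℝ, x₀ ≤ x →
    c * x ^ H β / Real.log x ≤ ((clim x (x ^ (β * Real.logb 2 3))).ncard : ℝ) := by
  classical
  have hb : 0 < 1 - β := by linarith
  have hl2 : 0 < Real.log 2 := Real.log_pos (by norm_num)
  set h := Real.binEntropy β with hh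
  have hh0 : 0 < h := Real.binEntropy_pos (by linarith) h1
  set C : ℝ := 6 * h / (1 - β) + 2 * h with hC
  have hC0 : 0 < C := by positivity
  -- threshold for `J`
  obtain ⟨J₀, hJ₀⟩ := exists_nat_gt (6 / (1 - β))
  refine ⟨Real.exp (-C) * Real.log 2, max 2 (2 ^ (J₀ + 2)), by positivity, fun x hx => ?_⟩
  have hx2 : 2 ≤ x := le_trans (le_max_left _ _) hx
  have hxJ : (2 : ℝ) ^ (J₀ + 2) ≤ x := le_trans (le_max_right _ _) hx
  have hx0 : 0 < x := by linarith
  have hx1 : 1 ≤ x := by linarith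
  obtain ⟨M, hM1, hM2⟩ := exists_nat_pow_near hx1 (by norm_num : (1 : ℝ) < 2)
  have hMJ : J₀ + 2 < M + 1 := by
    have : (2 : ℝ) ^ (J₀ + 2) < 2 ^ (M + 1) := by linarith
    exact (pow_lt_pow_iff_right₀ (by norm_num)).1 this
  obtain ⟨J, rfl⟩ : ∃ J, M = J + 1 := ⟨M - 1, by omega⟩
  have hJJ : J₀ + 1 ≤ J := by omega
  have hJR : 6 / (1 - β) < J := by
    have : (J₀ : ℝ) ≤ J := by exact_mod_cast (by omega : J₀ ≤ J)
    linarith
  have hJ0 : (0 : ℝ) < J := lt_trans (by positivity) hJR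
  have hJ6 : 6 < (J : ℝ) * (1 - β) := by rwa [div_lt_iff₀ hb] at hJR
  set L := Real.logb 2 x with hL
  have hL1 : (J : ℝ) + 1 ≤ L := by
    rw [hL, Real.le_logb_iff_rpow_le (by norm_num) hx0]
    have := hM1
    rw [← Real.rpow_natCast] at this
    push_cast at this
    exact this
  have hL2 : L ≤ (J : ℝ) + 2 := by
    rw [hL, Real.logb_le_iff_le_rpow (by norm_num) hx0]
    have := hM2.le
    rw [← Real.rpow_natCast] at this
    push_cast at this
    rw [show (J : ℝ) + 2 = J + 1 + 1 by ring]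
    exact this
  set m := ⌈β * L⌉₊ with hm
  have hm1 : β * L ≤ m := Nat.le_ceil _
  have hm2 : (m : ℝ) < β * L + 1 :=
    Nat.ceil_lt_add_one (mul_nonneg (by linarith) (by linarith))
  have hm3 : (m : ℝ) ≤ β * J + 3 := by nlinarith
  have hm4 : β * J ≤ m := by nlinarith
  have hmJ : (m : ℝ) ≤ J := by nlinarith
  have hmJ' : m ≤ J := by exact_mod_cast hmJ
  have hm0 : 1 ≤ m := by
    have hβ0 : 0 < β := by linarith
    have : (0 : ℝ) < m := lt_of_lt_of_le (mul_pos hβ0 hJ0) hm4
    exact_mod_cast this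
  -- the count
  set V : ℝ := x ^ (β * Real.logb 2 3) with hV
  have hV3 : V ≤ 3 ^ m := by
    have e : V = (3 : ℝ) ^ (β * L) := by
      rw [hV, Real.rpow_def_of_pos hx0, Real.rpow_def_of_pos (by norm_num : (0 : ℝ) < 3), hL,
        Real.logb, Real.logb]
      congr 1
      ring
    rw [e, ← Real.rpow_natCast]
    exact Real.rpow_le_rpow_of_exponent_le (by norm_num) hm1
  have hlow := lower0 (x := x) (V := V) (J := J) hM1 ((range (2 ^ J)).filter fun n => od J n = m)
    (filter_subset _ _) (by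
      intro r hr
      refine ⟨J, le_rfl, ?_⟩
      rw [(mem_filter.1 hr).2, div_mul_cancel₀ _ (by positivity)]
      exact hV3)
  rw [card_od] at hlow
  refine le_trans ?_ hlow
  -- the entropy bound
  have hbine := Pool.Agent.H517R2.RS.t_BINE Pool.Agent.H517R2.RS.t_MODE J m hm0 hmJ'
  have hch : (0 : ℝ) < (J.choose m : ℕ) := by exact_mod_cast Nat.choose_pos hmJ'
  have hconc : h * (1 - 6 / (J * (1 - β))) ≤ Real.binEntropy ((m : ℝ) / J) := by
    -- `m / J = (1 - l) β + l β'`, `β' = (1 + β) / 2`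
    set β' := (1 + β) / 2 with hβ'
    have hd : 0 < β' - β := by rw [hβ']; linarith
    set l := ((m : ℝ) / J - β) / (β' - β) with hl
    have hl0 : 0 ≤ l := by
      apply div_nonneg _ hd.le
      rw [sub_nonneg, le_div_iff₀ hJ0]; exact hm4
    have hl1 : l ≤ 6 / (J * (1 - β)) := by
      rw [hl, div_le_div_iff₀ hd (by positivity)]
      have e : (m : ℝ) / J - β = (m - β * J) / J := by field_simp
      rw [e, div_mul_eq_mul_div, div_le_iff₀ hJ0, hβ']
      have : ((m : ℝ) - β * J) ≤ 3 := by linarith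
      have h7 : (0 : ℝ) ≤ J * (1 - β) := by positivity
      nlinarith
    have hl2' : l ≤ 1 := by
      refine hl1.trans ?_
      rw [div_le_one (by positivity)]
      exact hJ6.le
    have hconcave := Real.strictConcave_binEntropy.concaveOn.2
      (x := β) (y := β') ⟨by linarith, h1.le⟩ ⟨by rw [hβ']; linarith, by rw [hβ']; linarith⟩
      (show 0 ≤ 1 - l by linarith) hl0 (by ring)
    simp only [smul_eq_mul] at hconcave
    have e : (1 - l) * β + l * β' = (m : ℝ) / J := by
      have : l * (β' - β) = (m : ℝ) / J - β := by rw [hl, div_mul_cancel₀ _ hd.ne']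
      linarith
    rw [e] at hconcave
    have hβ'0 : 0 ≤ Real.binEntropy β' :=
      Real.binEntropy_nonneg (by rw [hβ']; linarith) (by rw [hβ']; linarith)
    have h8 : 0 ≤ l * Real.binEntropy β' := mul_nonneg hl0 hβ'0
    have h9 : h * (1 - 6 / (J * (1 - β))) ≤ (1 - l) * h := by
      rw [mul_comm]
      exact mul_le_mul_of_nonneg_right (by linarith) hh0.le
    linarith
  have hJh : h * L - C ≤ J * Real.binEntropy ((m : ℝ) / J) := by
    have h8 := mul_le_mul_of_nonneg_left hconc hJ0.le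
    have e : (J : ℝ) * (h * (1 - 6 / (J * (1 - β)))) = J * h - 6 * h / (1 - β) := by
      field_simp
    rw [e] at h8
    have h9 : h * L ≤ h * (J + 2) := mul_le_mul_of_nonneg_left hL2 hh0.le
    rw [hC]
    linarith
  have hlogx : Real.log x = L * Real.log 2 := by
    rw [hL, Real.logb, div_mul_cancel₀ _ hl2.ne']
  have hLpos : 0 < L := by linarith
  have hxH : x ^ H β = Real.exp (h * L) := by
    rw [Real.rpow_def_of_pos hx0]
    congr 1
    unfold H
    rw [hL, Real.logb, ← hh]
    ring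
  rw [hxH, hlogx]
  have hlogc : h * L - C - Real.log L ≤ Real.log (J.choose m) := by
    have h9 : Real.log ((J : ℝ) + 1) ≤ Real.log L := Real.log_le_log (by positivity) hL1
    linarith
  have h10 := Real.exp_le_exp.2 hlogc
  rw [Real.exp_log hch, Real.exp_sub, Real.exp_sub, Real.exp_log hLpos] at h10
  refine le_trans (le_of_eq ?_) h10
  rw [Real.exp_neg]
  field_simp

end Pool.Agent.L5helper95.Exc
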