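import Pool.Agent.L5helper31.TG.Defs
import Pool.Agent.TH984.GB.Simplex

set_option autoImplicit false

/-!
The integral of `(r - ∑ w)₊` over the orthant (TG1 of helper31's project).
-/

open MeasureTheory Finset

namespace Pool.Agent.L5helper31.TG

/-- TG1. The integral of `(r - ∑ w)₊` over the orthant. -/
theorem T_int (ι : Type) [Fintype ι] (r : ℝ) (hr : 0 ≤ r) :
    ∫⁻ w : ι → ℝ, Set.indicator {w | ∀ i, 0 ≤ w i} (fun w => ENNReal.ofReal (r - ∑ i, w i)) w =
      ENNReal.ofReal (r ^ (Fintype.card ι + 1) / (Fintype.card ι + 1).factorial) := by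
  have h1 : ∫⁻ w : ι → ℝ, Set.indicator {w | ∀ i, 0 ≤ w i}
      (fun w => ENNReal.ofReal (r - ∑ i, w i)) w =
      ∫⁻ w : ι → ℝ, Set.indicator {w | ∀ i, 0 < w i}
        (fun w => ENNReal.ofReal (r - ∑ i, w i)) w := by
    have hae : ∀ᵐ w : ι → ℝ, ∀ i, w i ≠ 0 := ae_all_iff.2 fun i => by
      rw [volume_pi]
      exact Measure.ae_eval_ne _ i 0
    refine lintegral_congr_ae ?_
    filter_upwards [hae] with w hw
    by_cases h : ∀ i, 0 ≤ w i
    · have h' : ∀ i, 0 < w i := fun i => lt_of_le_of_ne (h i) (hw i).symm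
      rw [Set.indicator_of_mem (show w ∈ {w : ι → ℝ | ∀ i, 0 ≤ w i} from h),
        Set.indicator_of_mem (show w ∈ {w : ι → ℝ | ∀ i, 0 < w i} from h')]
    · have h' : ¬ ∀ i, 0 < w i := fun k => h fun i => (k i).le
      rw [Set.indicator_of_notMem (show w ∉ {w : ι → ℝ | ∀ i, 0 ≤ w i} from h),
        Set.indicator_of_notMem (show w ∉ {w : ι → ℝ | ∀ i, 0 < w i} from h')]
  rw [h1]
  set S : Set (ℝ × (ι → ℝ)) :=
    {p | 0 < p.1 ∧ ((∀ i, 0 < p.2 i) ∧ ∑ i, p.2 i ≤ r - p.1)} with hSdef
  have hS : MeasurableSet S := by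
    have h1 : MeasurableSet {p : ℝ × (ι → ℝ) | 0 < p.1} :=
      measurableSet_lt measurable_const measurable_fst
    have h2 : MeasurableSet {p : ℝ × (ι → ℝ) | ∀ i, 0 < p.2 i} := by
      rw [show {p : ℝ × (ι → ℝ) | ∀ i, 0 < p.2 i} = ⋂ i, {p | 0 < p.2 i} by ext; simp]
      exact MeasurableSet.iInter fun i => measurableSet_lt measurable_const
        ((measurable_pi_apply i).comp measurable_snd)
    have h3 : MeasurableSet {p : ℝ × (ι → ℝ) | ∑ i, p.2 i ≤ r - p.1} :=
      measurableSet_le (Finset.measurable_sum _ fun i _ =>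
        (measurable_pi_apply i).comp measurable_snd) (measurable_const.sub measurable_fst)
    exact h1.inter (h2.inter h3)
  have hA : ((volume : Measure ℝ).prod (volume : Measure (ι → ℝ))) S =
      ∫⁻ w : ι → ℝ, Set.indicator {w | ∀ i, 0 < w i}
        (fun w => ENNReal.ofReal (r - ∑ i, w i)) w := by
    rw [Measure.prod_apply_symm hS]
    refine lintegral_congr fun w => ?_
    by_cases h : ∀ i, 0 < w i
    · rw [Set.indicator_of_mem (show w ∈ {w : ι → ℝ | ∀ i, 0 < w i} from h)]
      have : (fun t : ℝ => (t, w)) ⁻¹' S = Set.Ioc 0 (r - ∑ i, w i) := by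
        ext t
        simp only [hSdef, Set.mem_preimage, Set.mem_ofPred_eq, Set.mem_Ioc]
        constructor
        · rintro ⟨h1, -, h2⟩
          exact ⟨h1, by linarith⟩
        · rintro ⟨h1, h2⟩
          exact ⟨h1, h, by linarith⟩
      rw [this, Real.volume_Ioc, sub_zero]
    · rw [Set.indicator_of_notMem (show w ∉ {w : ι → ℝ | ∀ i, 0 < w i} from h)]
      have : (fun t : ℝ => (t, w)) ⁻¹' S = ∅ := by
        ext t
        simp only [hSdef, Set.mem_preimage, Set.mem_ofPred_eq, Set.mem_empty_iff_false, iff_false]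
        rintro ⟨-, h1, -⟩
        exact h h1
      rw [this, measure_empty]
  rw [← hA, Measure.prod_apply hS]
  have hsl : ∀ t : ℝ, volume (Prod.mk t ⁻¹' S) =
      (Set.Ioc 0 r).indicator (fun t => ENNReal.ofReal
        ((r - t) ^ Fintype.card ι / (Fintype.card ι).factorial)) t := by
    intro t
    by_cases ht : t ∈ Set.Ioc 0 r
    · rw [Set.indicator_of_mem ht,
        ← Pool.Agent.TH984.GBS.vol_pos_simplex ι (r - t) (by linarith [ht.2])]
      congr 1
      ext s
      simp [hSdef, ht.1]
    · rw [Set.indicator_of_notMem ht]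
      have : Prod.mk t ⁻¹' S = ∅ := by
        ext s
        simp only [hSdef, Set.mem_preimage, Set.mem_ofPred_eq, Set.mem_empty_iff_false, iff_false]
        rintro ⟨h0, h1, h2⟩
        have h3 : 0 ≤ ∑ i, s i := Finset.sum_nonneg fun i _ => (h1 i).le
        exact ht ⟨h0, by linarith⟩
      rw [this, measure_empty]
  simp_rw [hsl]
  rw [lintegral_indicator measurableSet_Ioc]
  have hint : IntervalIntegrable
      (fun t : ℝ => (r - t) ^ Fintype.card ι / (Fintype.card ι).factorial) volume 0 r := by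
    apply Continuous.intervalIntegrable
    fun_prop
  rw [← ofReal_integral_eq_lintegral_ofReal]
  · rw [← intervalIntegral.integral_of_le hr]
    congr 1
    have h := intervalIntegral.integral_comp_sub_left (a := 0) (b := r)
      (fun t : ℝ => t ^ Fintype.card ι / (Fintype.card ι).factorial) r
    rw [h]
    simp only [sub_self, sub_zero]
    rw [intervalIntegral.integral_div, integral_pow]
    rw [Nat.factorial_succ]
    push_cast
    field_simp
    simp
  · exact (intervalIntegrable_iff_integrableOn_Ioc_of_le hr).1 hint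
  · refine (ae_restrict_iff' measurableSet_Ioc).2 (Filter.Eventually.of_forall fun t ht => ?_)
    have : 0 ≤ r - t := by linarith [ht.2]
    positivity

end Pool.Agent.L5helper31.TG
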