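import Pool.Agent.L5helper13.TQ.Defs

set_option autoImplicit false

/-!
TQ7 of helper13's project: comparison of coefficients.
-/

namespace Pool.Agent.L5helper13.TQ

open MvPolynomial

/-- TQ7 -/
theorem compare (k : Type) [Field k] [CharZero k] (V : Type) [AddCommGroup V] [Module k V]
    (l1 l2 l3 : V →ₗ[k] V) (B1 B2 B3 : V →ₗ[k] V →ₗ[k] V) (hsym : ∀ x y, B2 x y = B2 y x)
    (h : ∀ x, l1 x + B1 x x = l2 (l3 x + B3 x x) + B2 (l3 x + B3 x x) (l3 x + B3 x x)) (x : V) :
    l1 x = l2 (l3 x) ∧ B1 x x = l2 (B3 x x) + B2 (l3 x) (l3 x) ∧ B2 (l3 x) (B3 x x) = 0 ∧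
      B2 (B3 x x) (B3 x x) = 0 := by
  have key : ∀ c : k, c • (l2 (l3 x) - l1 x) +
      c ^ 2 • (l2 (B3 x x) + B2 (l3 x) (l3 x) - B1 x x) +
      c ^ 3 • ((2 : k) • B2 (l3 x) (B3 x x)) + c ^ 4 • B2 (B3 x x) (B3 x x) = 0 := by
    intro c
    have hc := h (c • x)
    simp only [map_smul, LinearMap.smul_apply, map_add, LinearMap.add_apply, smul_add,
      smul_smul] at hc
    rw [hsym (B3 x x) (l3 x)] at hc
    have hc' := sub_eq_zero.2 hc
    have e : c • (l2 (l3 x) - l1 x) +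
      c ^ 2 • (l2 (B3 x x) + B2 (l3 x) (l3 x) - B1 x x) +
      c ^ 3 • ((2 : k) • B2 (l3 x) (B3 x x)) + c ^ 4 • B2 (B3 x x) (B3 x x) =
      -(c • l1 x + (c * c) • B1 x x - (c • l2 (l3 x) + (c * c) • l2 (B3 x x) +
        ((c * c) • B2 (l3 x) (l3 x) + (c * c * c) • B2 (l3 x) (B3 x x) +
        ((c * c * c) • B2 (l3 x) (B3 x x) + (c * c * (c * c)) • B2 (B3 x x) (B3 x x))))) := by
      module
    rw [e, neg_eq_zero]
    rw [← hc']
    module
  have k1 := key 1
  have k2 := key (-1)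
  have k3 := key 2
  have k4 := key (-2)
  have h12 : (12 : k) ≠ 0 := by norm_num
  generalize l2 (l3 x) = a at *
  generalize l1 x = b at *
  generalize l2 (B3 x x) = c at *
  generalize B2 (l3 x) (l3 x) = d at *
  generalize B1 x x = e at *
  generalize B2 (l3 x) (B3 x x) = f at *
  generalize B2 (B3 x x) (B3 x x) = g at *
  have hg : (12 : k) • g = 0 := by
    linear_combination (norm := module) (1 / 2 : k) • k3 + (1 / 2 : k) • k4 - (2 : k) • k1 - (2 : k) • k2
  have hg' : g = 0 := (smul_eq_zero.1 hg).resolve_left h12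
  have hf : (12 : k) • f = 0 := by
    linear_combination (norm := module) (1 / 2 : k) • k3 - (1 / 2 : k) • k4 - k1 + k2
  have hf' : f = 0 := (smul_eq_zero.1 hf).resolve_left h12
  subst hg' hf'
  have ha : (2 : k) • (a - b) = 0 := by
    linear_combination (norm := module) k1 - k2
  have hb : (2 : k) • (c + d - e) = 0 := by
    linear_combination (norm := module) k1 + k2
  have h22 : (2 : k) ≠ 0 := two_ne_zero
  refine ⟨?_, ?_, rfl, rfl⟩
  · exact (sub_eq_zero.1 ((smul_eq_zero.1 ha).resolve_left h22)).symm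
  · exact (sub_eq_zero.1 ((smul_eq_zero.1 hb).resolve_left h22)).symm

end Pool.Agent.L5helper13.TQ
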